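import Pool.Agent.H17.SigSp

set_option autoImplicit false
open Set Topology

namespace Pool.Agent.Results.MP_158c61_gt.Neg

/-- Every open cover has a closed refinement that is a countable union of discrete families. -/
def Subparacompact (Z : Type) [TopologicalSpace Z] : Prop :=
  ∀ 𝒰 : Set (Set Z), (∀ U ∈ 𝒰, IsOpen U) → ⋃₀ 𝒰 = univ →
    ∃ 𝓕 : ℕ → Set (Set Z), (∀ n, ∀ F ∈ 𝓕 n, IsClosed F ∧ ∃ U ∈ 𝒰, F ⊆ U) ∧
      (∀ n z, ∃ V ∈ nhds z, {F | F ∈ 𝓕 n ∧ (F ∩ V).Nonempty}.Subsingleton) ∧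
      ∀ z, ∃ n, ∃ F ∈ 𝓕 n, z ∈ F

theorem result :
    ∃ (X : Type) (_ : TopologicalSpace X), CompactSpace X ∧ T2Space X ∧
      (∃ (κ : Type) (π : (κ → Bool) → X), Continuous π ∧ Function.Surjective π) ∧
      ¬ TopologicalSpace.MetrizableSpace X ∧
      Subparacompact {f : X → ℝ // Continuous f} ∧
      ∀ Z : Set {f : X → ℝ // Continuous f}, Subparacompact Z := by
  obtain ⟨c, hc⟩ := Pool.Agent.H17.W1.inj_cantor
  obtain ⟨u, hu⟩ := Pool.Agent.H17.SigSp.dense_seq c hc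
  obtain ⟨ι, N, h1, h2, h3⟩ := Pool.Agent.H17.SigSp.net u hu
  have : Nonempty Pool.Agent.H17.SigSp.DD := ⟨⟨0, fun _ => (0, 0), 0, 0, ∅⟩⟩
  refine ⟨Pool.Agent.H17.W1.W → Bool, inferInstance, inferInstance, inferInstance,
    ⟨_, id, continuous_id, Function.surjective_id⟩, fun hm => ?_,
    Pool.Agent.H17.SigSp.subpara N h1 h2 h3, fun Z => ?_⟩
  · letI := TopologicalSpace.metrizableSpaceMetric (Pool.Agent.H17.W1.W → Bool)
    exact Pool.Agent.H17.TE.cube_not_sc Pool.Agent.H17.W1.mkW inferInstance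
  · refine Pool.Agent.H17.SigSp.subpara (fun d i => Subtype.val ⁻¹' N d i)
      (fun d => (h1 d).preimage_continuous continuous_subtype_val)
      (fun d i => (h2 d i).preimage continuous_subtype_val) ?_
    intro z U hU hz
    obtain ⟨V, hV, rfl⟩ := isOpen_induced_iff.1 hU
    obtain ⟨d, i, a, b⟩ := h3 z.1 V hV hz
    exact ⟨d, i, a, preimage_mono b⟩

end Pool.Agent.Results.MP_158c61_gt.Neg
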